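import Pool.Agent.W711.HT.Stm

/-!
# Volume conjecture for highly twisted two-bridge links: three auxiliary statements
-/

set_option autoImplicit false

namespace Pool.Agent.W711.HT

open Filter Finset Topology Metric
open scoped Real

/-- fixed points depending analytically on a parameter -/
def S_FIX : Prop := ∀ (Φ : ℂ → ℂ → ℂ) (r : ℝ) (U : Set ℂ), 0 < r → IsOpen U →
  DifferentiableOn ℂ (fun p : ℂ × ℂ => Φ p.1 p.2) (ball 0 (2 * r) ×ˢ U) →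
  (∀ z ∈ closedBall (0 : ℂ) r, ∀ ψ ∈ U, ‖Φ z ψ‖ ≤ r) →
  (∀ z ∈ closedBall (0 : ℂ) r, ∀ z' ∈ closedBall (0 : ℂ) r, ∀ ψ ∈ U,
    ‖Φ z ψ - Φ z' ψ‖ ≤ 1 / 2 * ‖z - z'‖) →
  ∃ zs : ℂ → ℂ, DifferentiableOn ℂ zs U ∧ ∀ ψ ∈ U, ‖zs ψ‖ ≤ r ∧ Φ (zs ψ) ψ = zs ψ ∧
    ∀ z : ℂ, ‖z‖ ≤ r → Φ z ψ = z → z = zs ψ

/-- the functions of the recursion are entire and even -/
def S_STPE : Prop := ∀ (a : ℤ) (X : ℕ → ℂ → ℂ), (∀ N, Differentiable ℂ (X N)) →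
  (∀ N, Differentiable ℂ (stp a X N)) ∧ ∀ N ψ, stp a X N (-ψ) = stp a X N ψ

/-- splitting of the path: the part `|x| ≤ ρ` and the rest -/
def S_UPB : Prop := ∀ a : ℤ, ∃ C : ℝ, 0 < C ∧ ∀ ρ : ℝ, 0 < ρ → ρ ≤ π → ∀ᶠ N : ℕ in atTop,
  ∀ (f : ℂ → ℂ) (B : ℝ), Continuous f →
    ((∀ x y : ℝ, ρ ≤ |x| → |x| ≤ π → |y| ≤ 1 / N → ‖f (x + y * Complex.I)‖ ≤ B) →
      ‖(upp (1 / N) fun ψ => Ea a N ψ * f ψ * kr N ψ) -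
        ∫ x in (-ρ)..ρ, Ea a N (x + (1 / N : ℝ) * Complex.I) *
          f (x + (1 / N : ℝ) * Complex.I) * kr N (x + (1 / N : ℝ) * Complex.I)‖ ≤ C * B) ∧
    ((∀ x y : ℝ, |x| ≤ ρ → |y| ≤ 1 / N → ‖f (x + y * Complex.I)‖ ≤ B) →
      ‖∫ x in (-ρ)..ρ, Ea a N (x + (1 / N : ℝ) * Complex.I) *
          f (x + (1 / N : ℝ) * Complex.I) * kr N (x + (1 / N : ℝ) * Complex.I)‖ ≤ C * B)

end Pool.Agent.W711.HT
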