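import Mathlib

/-!
# Volume conjecture for highly twisted two-bridge links: definitions

`C(a_1, ..., a_r)`.  The Kashaev invariant is, up to the factor `(N^2 / (2 π))^r` and a number of
modulus one, the iterated integral `JJ`.
-/

set_option autoImplicit false

namespace Pool.Agent.W711.HT

open Filter Finset Topology
open scoped Real

/-- the angles `π (2 j + 1) / N` -/
noncomputable def phi (N j : ℕ) : ℝ := π * (2 * j + 1) / N

/-- `R_d(ψ) = ∏_{j<d} (2 cos ψ + 2 cos φ_j)` -/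
noncomputable def Rp (N d : ℕ) (ψ : ℂ) : ℂ :=
  ∏ j ∈ range d, (2 * Complex.cos ψ + 2 * (Real.cos (phi N j) : ℂ))

/-- `S_d = ∏_{k=1}^{d} 2 sin (π k / N)` -/
noncomputable def Sd (N d : ℕ) : ℝ := ∏ k ∈ range d, (2 * Real.sin (π * (k + 1) / N))

/-- `e^{i a N ψ^2 / (4 π)}`: `a` half twists -/
noncomputable def Ea (a : ℤ) (N : ℕ) (ψ : ℂ) : ℂ :=
  Complex.exp (Complex.I * a * N * ψ ^ 2 / (4 * π))

/-- `2 sin ψ / (4 cos^2 (N (ψ + π) / 2))` -/
noncomputable def kr (N : ℕ) (ψ : ℂ) : ℂ :=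
  2 * Complex.sin ψ / (4 * Complex.cos (N * (ψ + π) / 2) ^ 2)

/-- the path integral from `-π` to `π` through the upper half plane, at height `h` -/
noncomputable def upp (h : ℝ) (f : ℂ → ℂ) : ℂ :=
  Complex.I * (∫ y in (0:ℝ)..h, f (-π + y * Complex.I)) +
    (∫ x in (-π)..π, f (x + h * Complex.I)) -
    Complex.I * (∫ y in (0:ℝ)..h, f (π + y * Complex.I))

/-- the kernel of a hinge: `∑_{d<N} R_d(ψ) R_d(ψ') / S_d^4` -/
noncomputable def ker (N : ℕ) (ψ ψ' : ℂ) : ℂ :=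
  ∑ d ∈ range N, Rp N d ψ * Rp N d ψ' / (Sd N d : ℂ) ^ 4

/-- one twist region and one hinge -/
noncomputable def stp (a : ℤ) (X : ℕ → ℂ → ℂ) (N : ℕ) (ψ' : ℂ) : ℂ :=
  upp (1 / N) fun ψ => Ea a N ψ * X N ψ * ker N ψ ψ' * kr N ψ

/-- the head of the list is the last twist region -/
noncomputable def XX : List ℤ → ℕ → ℂ → ℂ
  | [] => fun _ _ => 1
  | a :: l => stp a (XX l)

/-- the iterated integral; the head of the list is the last twist region -/
noncomputable def JJ : List ℤ → ℕ → ℂ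
  | [] => fun _ => 1
  | a :: l => fun N => upp (1 / N) fun ψ => Ea a N ψ * XX l N ψ * kr N ψ

/-- `v_8 / (2 π) = (4 / π) Λ(π / 4)` -/
noncomputable def bet : ℝ := -(4 / π) * ∫ t in (0:ℝ)..(π / 4), Real.log (2 * Real.sin t)

/-- open rectangle centred at the origin -/
def Rc (ρ τ : ℝ) : Set ℂ := {z | |z.re| < ρ ∧ |z.im| < τ}

/-- limit of `log R_d / N`, `d = δ N` -/
noncomputable def rrF (δ ψ : ℂ) : ℂ :=
  δ * ∫ t in (0:ℝ)..1, Complex.log (2 * Complex.cos ψ + 2 * Complex.cos (2 * π * δ * t))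

/-- limit of `log S_d / N`, `d = δ N` -/
noncomputable def ssF (δ : ℂ) : ℂ := δ * ∫ t in (0:ℝ)..1, Complex.log (2 * Complex.sin (π * δ * t))

/-- `log (cos ((u - ψ) / 2) / cos ((u + ψ) / 2))` -/
noncomputable def Lg (u ψ : ℂ) : ℂ :=
  Complex.log (Complex.cos ((u - ψ) / 2) / Complex.cos ((u + ψ) / 2))

/-- asymptotics of the modulus: `X_N(z) ≠ 0` and `log |X_N(z)| / N` tends to `Re F(z)`, uniformly
on `U` -/
def MW (X : ℕ → ℂ → ℂ) (F : ℂ → ℂ) (U : Set ℂ) : Prop :=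
  ∀ ε : ℝ, 0 < ε → ∀ᶠ N : ℕ in atTop, ∀ z ∈ U,
    X N z ≠ 0 ∧ |Real.log ‖X N z‖ - N * (F z).re| ≤ ε * N

end Pool.Agent.W711.HT
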