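import Pool.Agent.W711.HT.Geo

/-!
# Volume conjecture for highly twisted two-bridge links: final statement with the size of the volume
-/

set_option autoImplicit false

namespace Pool.Agent.W711.HT

open Filter Finset Topology
open scoped Real

/-- the growth rate is the maximal volume, and this is close to `2 (r - 1) v_8`
(`v_8 = 2 π bet`) -/
def S_FIN2 : Prop := ∃ (C : ℝ) (M : ℕ), 0 < C ∧ ∀ (as : List ℕ) [DecidablePred (hin as)],
  2 ≤ as.length → (∀ a ∈ as, M ≤ a) → ∃ V : ℝ,
    IsGreatest {W : ℝ | ∃ w, AngG (as.sum - 2) (hin as) w ∧ volG (as.sum - 2) (hin as) w = W} V ∧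
    |V - 4 * π * bet * ((as.length : ℝ) - 1)| ≤ C * (as.map fun a : ℕ => 1 / (a : ℝ)).sum ∧
    Tendsto (fun N : ℕ => 2 * π * (Real.log ‖JJ (sgl true as) N‖ / N)) atTop (𝓝 V)

end Pool.Agent.W711.HT
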