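import Pool.Agent.W947.HT.Fin
import Pool.Agent.W711.HT.Fin

/-!
# Volume conjecture for highly twisted two-bridge links: growth rate = maximal volume
-/

set_option autoImplicit false

namespace Pool.Agent.W711.HT

open Filter Finset Topology
open Pool.Agent.W947.HT.Fin
open scoped Real

lemma sgr_sum (C : ℝ) (l : List ℕ) : ((sgr l).map fun b => C / |(b : ℝ)|).sum =
    C * (l.map fun a : ℕ => 1 / (a : ℝ)).sum := by
  simp only [List.pure_def, List.bind_eq_flatMap, List.map_flatMap]
  induction l with
  | nil => simp [sgr]
  | cons x l ih =>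
    rw [sgr, List.flatMap_cons, List.sum_append, ih, List.map_cons, List.sum_cons]
    have : |(((if l.length % 2 = 0 then (x : ℤ) else -(x : ℤ) : ℤ)) : ℝ)| = (x : ℝ) := by
      split_ifs <;> simp
    rw [List.map_cons, this]
    simp
    ring

theorem fin2 : S_MAIN → S_GMAX → S_CHN → S_CHV → S_CCH → S_FIN2 := by
  intro hmain hgmax hchn hchv hcch
  obtain ⟨ρ, τ, κ, c, s, dl, hKD, C, M, hC, hM, hlim⟩ := hmain
  obtain ⟨M', hM'⟩ := hcch ρ τ κ c s dl hKD C hC
  refine ⟨2 * π * C, max M' ⌈M⌉₊, by positivity, ?_⟩
  intro as
  obtain ⟨rs, rfl⟩ : ∃ rs : List ℕ, as = rs.reverse := ⟨as.reverse, by simp⟩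
  cases rs with
  | nil =>
    intro _ hlen
    simp at hlen
  | cons m ms =>
    intro _ hlen has
    rw [List.length_reverse, List.length_cons] at hlen
    have hms : ms ≠ [] := by
      rintro rfl
      simp at hlen
    have hbd : ∀ a ∈ m :: ms, M' ≤ a ∧ M ≤ (a : ℝ) := by
      intro a ha
      have h1 := has a (List.mem_reverse.mpr ha)
      refine ⟨le_trans (le_max_left _ _) h1, ?_⟩
      exact le_trans (Nat.le_ceil M) (by exact_mod_cast le_trans (le_max_right _ _) h1)
    obtain ⟨z, ps, v, g, hcrit, hcp, heq, htend, hest⟩ :=
      hlim (if ms.length % 2 = 0 then (m : ℤ) else -(m : ℤ)) (sgr ms)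
        (by
          intro h
          have := length_sgr ms
          rw [h] at this
          exact hms (List.length_eq_zero_iff.mp this.symm))
        (by
          have := (hbd m (by simp)).2
          split_ifs <;> simpa using this)
        (by
          intro b hb
          obtain ⟨a, ha, h⟩ := mem_sgr ms b hb
          rw [h]
          exact (hbd a (by simp [ha])).2)
    have hl : ms.length = ps.length := by
      rw [← length_sgr ms]
      exact crit_length hcrit
    set L0 : List (ℕ × ℂ) := ms.zip ps with hL0
    have hfst : L0.map Prod.fst = ms := by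
      rw [hL0, List.map_fst_zip (by omega)]
    have hsnd : L0.map Prod.snd = ps := by
      rw [hL0, List.map_snd_zip (by omega)]
    have hL0n : L0 ≠ [] := by
      intro h
      rw [h] at hfst
      exact hms hfst.symm
    have hL0len : L0.length = ms.length := by
      rw [← hfst, List.length_map]
    have hsg : sgc L0 = sgr ms := by rw [sgc_eq, hfst]
    have hif : (if bl L0 = true then (m : ℤ) else -(m : ℤ)) =
        if ms.length % 2 = 0 then (m : ℤ) else -(m : ℤ) := by
      simp [bl, hL0len]
    have hres := hM' (m, z) L0 hL0n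
      (by
        intro p' hp'
        rw [List.mem_cons] at hp'
        rcases hp' with rfl | hp'
        · exact (hbd m (by simp)).1
        · have : p'.1 ∈ ms := by
            rw [← hfst]
            exact List.mem_map_of_mem hp'
          exact (hbd p'.1 (by simp [this])).1)
      v g (by rw [hsg, hsnd]; exact hcrit)
      (by
        simp only [hif]
        exact hcp)
      (by
        simp only [hif]
        exact heq)
    obtain ⟨hch, hval⟩ := hres
    simp only [hif] at hval
    set L : List (ℕ × ℂ) := (m, z) :: L0 with hL
    have hLfst : L.map Prod.fst = m :: ms := by simp [hL, hfst]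
    have hLlen : 2 ≤ L.length := by
      rw [hL, List.length_cons, hL0len]
      exact hlen
    have hiff : ∀ j, isH L j ↔ hin (m :: ms).reverse j := by
      intro j
      rw [isH_iff, hLfst]
    have hsm : sm L = ((m :: ms).reverse).sum := by
      rw [sm_eq, hLfst, List.sum_reverse]
    classical
    have hsol := hchn dl L hLlen hch
    have hgr := hgmax (sm L - 2) (isH L) (Qc dl L) (Pc dl L) hsol
    rw [hchv dl L hLlen hch] at hgr
    refine ⟨hsum dl L, ?_, ?_, ?_⟩
    · rw [hsm] at hgr
      convert hgr using 2
      ext w
      exact exists_congr fun w => by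
        rw [angG_congr hiff w, volG_congr hiff w]
    · rw [hKD.zero] at hest
      have e1 : |(((if ms.length % 2 = 0 then (m : ℤ) else -(m : ℤ) : ℤ)) : ℝ)| = (m : ℝ) := by
        split_ifs <;> simp
      rw [sgr_sum, e1, length_sgr] at hest
      have h1 := (Complex.abs_re_le_norm _).trans hest
      rw [Complex.sub_re] at h1
      have e2 : (((ms.length : ℕ) : ℂ) * ((2 * bet : ℝ) : ℂ)).re = (ms.length : ℝ) * (2 * bet) := by
        rw [← Complex.ofReal_natCast, ← Complex.ofReal_mul, Complex.ofReal_re]
      rw [e2] at h1
      rw [← hval, List.length_reverse, List.length_cons, List.map_reverse, List.sum_reverse,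
        List.map_cons, List.sum_cons]
      have e3 : ∀ x : ℝ, 2 * π * x - 4 * π * bet * (((ms.length + 1 : ℕ) : ℝ) - 1) =
          2 * π * (x - (ms.length : ℝ) * (2 * bet)) := by
        intro x
        push_cast
        ring
      rw [e3, abs_mul, abs_of_pos Real.two_pi_pos]
      calc _ ≤ 2 * π * (C / (m : ℝ) + C * (ms.map fun a : ℕ => 1 / (a : ℝ)).sum) :=
            mul_le_mul_of_nonneg_left h1 Real.two_pi_pos.le
        _ = _ := by ring
    · rw [← hval]
      have hsgl : sgl true (m :: ms).reverse =
          (if ms.length % 2 = 0 then (m : ℤ) else -(m : ℤ)) :: sgr ms := by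
        rw [sgl_reverse, sgr]
      rw [hsgl]
      exact htend.const_mul _

end Pool.Agent.W711.HT
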