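import Pool.Agent.W688.HT.Fin
import Pool.Agent.W688.HT.Bb
import Pool.Agent.W335.HT.BND
import Pool.Agent.W176.HTN.Newt
import Pool.Agent.W366.HT.Int
import Pool.Agent.W398.HT.RRD2
import Pool.Agent.W588.HT.Core
import Pool.Agent.W588.HT.LapSum
import Pool.Agent.W930.HT.Log
import Pool.Agent.W583.HTSeq
import Pool.Agent.W85.HT.LapInt
import Pool.Agent.W177.HT.SD
import Pool.Agent.W469.HT.Ker
import Pool.Agent.W19.HT.Fix
import Pool.Agent.W293.HT.CP
import Pool.Agent.W398.HT.STPE
import Pool.Agent.W503.HT.Upb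
import Pool.Agent.W85.HT.Step
import Pool.Agent.W503.HT.Main
import Pool.Agent.W711.HT.Stm2

/-! Assembly of the analytic part. -/

set_option autoImplicit false

namespace Pool.Agent.W711.HT

open Pool.Agent

theorem f_BND : S_BND := Pool.W335.HT.bnd W688.HT.b0 W688.HT.b1
theorem f_FARD : S_FARD := Pool.W335.HT.fard W688.HT.b0 W688.HT.b2
theorem f_INT : S_INT := W366.HT.int_ W176.HTN.newt
theorem f_RRD : S_RRD := W398.HT.main
theorem f_LAPINT : S_LAPINT := W85.HT.lapint W588.HT.lapc W930.HTLog.main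
theorem f_SD : S_SD := W177.HT.sd f_RRD
theorem f_CP : S_CP := W293.HT.cp W19.HTFix.task
theorem f_STEP : S_STEP := W85.HT.step f_CP f_LAPINT W583.HT.seq W398.HT.t_STPE upb
theorem f_MAIN (h : S_MWK) : S_MAIN := main_of_step (W469.HT.t_KER f_SD h f_BND) f_STEP

end Pool.Agent.W711.HT
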