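import Pool.Agent.W711.HT.Final1
import Pool.Agent.W711.HT.Fin2
import Pool.Agent.W469.HT.Mwk
import Pool.Agent.W346.HT.Asm
import Pool.Agent.W346.HT.Cont
import Pool.Agent.W349.HT.Alg
import Pool.Agent.W349.HT.Gdl
import Pool.Agent.W554.HT.Gmax
import Pool.Agent.W658.HT.Fang
import Pool.Agent.W883.HT.Hid
import Pool.Agent.W612.HT.Hloc
import Pool.Agent.W816.HT.HV
import Pool.Agent.W583.HTChv
import Pool.Agent.W249.HT.Quad
import Pool.Agent.W253.HT.Chn
import Pool.Agent.W374.HT.Cch
import Pool.Agent.W120.VC.Tet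
import Pool.Agent.W505.VC.Five

/-! Assembly of the geometric part and of the R-matrix part. -/

set_option autoImplicit false

namespace Pool.Agent.W711.HT

open Pool.Agent Filter Finset Topology
open scoped Real

theorem g_MAIN : S_MAIN :=
  f_MAIN (W469.HT.Mwk.t_MWK f_INT f_RRD W588.HT.lapsum0 f_FARD W583.HT.seq)

theorem g_RT : S_RT := W346.HT.asm W349.HT.alg W349.HT.gdl W346.HT.cont

theorem g_CHN : S_CHN := W253.HT.main W612.HT.hloc W249.HT.Quad.main

theorem g_HV : S_HV := W816.HT.hV (W883.HT.Hid.main W505.VC.dsym W505.VC.five) W612.HT.hloc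
  W505.VC.dsym

theorem g_CHV : S_CHV := W583.HT.chv (W658.HT.Fang.main W505.VC.dsym W505.VC.five) g_HV
  W612.HT.hloc W505.VC.dsym g_CHN

theorem g_FIN (h : S_POTH) : S_FIN2 :=
  fin2 g_MAIN (W554.HT.gmax W120.VC.tet) g_CHN g_CHV (W374.HT.Cch.cch h)

/-- the volume conjecture for highly twisted two-bridge links -/
theorem final (h : S_POTH) : ∃ (C : ℝ) (M : ℕ), 0 < C ∧
    ∀ (as : List ℕ) [DecidablePred (hin as)], 2 ≤ as.length → (∀ a ∈ as, M ≤ a) →
    (∀ N : ℕ, ContinuousAt (jn as N) (vN N)) ∧ ∃ V : ℝ,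
    IsGreatest {W : ℝ | ∃ w, AngG (as.sum - 2) (hin as) w ∧ volG (as.sum - 2) (hin as) w = W} V ∧
    |V - 4 * π * bet * ((as.length : ℝ) - 1)| ≤ C * (as.map fun a : ℕ => 1 / (a : ℝ)).sum ∧
    Tendsto (fun N : ℕ => 2 * π * (Real.log ‖jn as N (vN N)‖ / N)) atTop (𝓝 V) := by
  obtain ⟨C, M, hC, hmain⟩ := g_FIN h
  refine ⟨C, M, hC, fun as _ hl ha => ?_⟩
  obtain ⟨V, h1, h2, h3⟩ := hmain as hl ha
  refine ⟨fun N => W346.HT.cont as N, V, h1, h2, ?_⟩
  have hne : as ≠ [] := by
    rintro rfl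
    simp at hl
  -- the polynomial factor
  have hlog : Tendsto (fun N : ℕ => Real.log N / N) atTop (𝓝 0) := by
    have := (Real.isLittleO_log_id_atTop).tendsto_div_nhds_zero
    exact this.comp tendsto_natCast_atTop_atTop
  have hpi : (0 : ℝ) < 2 * π := Real.two_pi_pos
  set K : ℝ := 2 * π * as.length with hK
  have hb : Tendsto (fun N : ℕ => K * ((2 * Real.log N + |Real.log (2 * π)|) / N)) atTop (𝓝 0) := by
    have e1 : (fun N : ℕ => K * ((2 * Real.log N + |Real.log (2 * π)|) / N)) =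
        fun N : ℕ => K * (2 * (Real.log N / N) + |Real.log (2 * π)| * ((N : ℝ))⁻¹) := by
      funext N
      ring
    rw [e1]
    have h0 : Tendsto (fun N : ℕ => ((N : ℝ))⁻¹) atTop (𝓝 0) := tendsto_inv_atTop_nhds_zero_nat
    simpa using ((hlog.const_mul 2).add (h0.const_mul _)).const_mul K
  have hd : Tendsto (fun N : ℕ => 2 * π * (Real.log ‖jn as N (vN N)‖ / N) -
      2 * π * (Real.log ‖JJ (sgl true as) N‖ / N)) atTop (𝓝 0) := by
    refine squeeze_zero_norm' ?_ hb
    filter_upwards [eventually_ge_atTop 2] with N hN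
    have hN1 : (2 : ℝ) ≤ N := by exact_mod_cast hN
    have hN0 : (0 : ℝ) < N := by linarith
    rw [(g_RT as hne N hN).2]
    have hlN : 0 ≤ Real.log N := Real.log_nonneg (by linarith)
    rcases eq_or_ne (‖JJ (sgl true as) N‖) 0 with hz | hz
    · rw [hz, mul_zero]
      simp only [Real.log_zero, zero_div, mul_zero, sub_self, norm_zero]
      positivity
    · have hfac : ((N : ℝ) ^ 2 / (2 * π)) ≠ 0 := by positivity
      rw [Real.log_mul (pow_ne_zero _ hfac) hz, Real.log_pow, Real.log_div (by positivity) hpi.ne',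
        Real.log_pow]
      have e2 : 2 * π * (((as.length : ℝ) * ((2 : ℕ) * Real.log N - Real.log (2 * π)) +
          Real.log ‖JJ (sgl true as) N‖) / N) - 2 * π * (Real.log ‖JJ (sgl true as) N‖ / N) =
          K * ((2 * Real.log N - Real.log (2 * π)) / N) := by
        rw [hK]
        push_cast
        ring
      rw [e2, Real.norm_eq_abs, abs_mul, abs_div, abs_of_pos hN0]
      have hK0 : 0 ≤ K := by positivity
      rw [abs_of_nonneg hK0]
      apply mul_le_mul_of_nonneg_left _ hK0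
      apply div_le_div_of_nonneg_right _ hN0.le
      calc |2 * Real.log N - Real.log (2 * π)| ≤ |2 * Real.log N| + |Real.log (2 * π)| :=
            abs_sub _ _
        _ = _ := by rw [abs_of_nonneg (by positivity : (0 : ℝ) ≤ 2 * Real.log N)]
  have := h3.add hd
  simpa using this

end Pool.Agent.W711.HT
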