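import Pool.Agent.W711.HT.Defs
import Pool.Agent.W709.RT.Defs

/-!
# Volume conjecture for highly twisted two-bridge links: from the R-matrix to the iterated integral

Statements.  The (1,1)-tangle: one strand and a cup to its right; `a_1` crossings between the
strands 1 and 2, `a_2` opposite crossings between the strands 2 and 3, and so on; then a cap
between the strands 1 and 2 if the number `r` of twist regions is even, between the strands 2 and 3
if `r` is odd.
-/

set_option autoImplicit false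

namespace Pool.Agent.W711.HT

open Filter Finset Topology Pool.Agent.H550R3.Jones
open scoped Real

/-- the braid word (the last letter acts first) -/
def wrd : Bool → List ℕ → List (ℕ × Bool)
  | _, [] => []
  | b, a :: l => wrd (!b) l ++ List.replicate a (if b then (0, true) else (1, false))

/-- closing by a cap between the strands 2 and 3 -/
noncomputable def tang' (N : ℕ) (w : List (ℕ × Bool)) (v : ℂ) : Matrix (Fin N) (Fin N) ℂ :=
  fun i j => ∑ p : Fin N × Fin N, ∑ q : Fin N × Fin N,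
    Pool.Agent.W709.RT.cap N v p * rep (crossP N v) (crossN N v) 3 w ![i, p.1, p.2]
      ![j, q.1, q.2] * Pool.Agent.W709.RT.cup N v q

/-- the normalised coloured Jones polynomial of `C(a_1, …, a_r)` -/
noncomputable def jn (as : List ℕ) (N : ℕ) (v : ℂ) : ℂ :=
  if h : 0 < N then
    (if as.length % 2 = 0 then Pool.Agent.W709.RT.tang N (wrd true as) v ⟨0, h⟩ ⟨0, h⟩
      else tang' N (wrd true as) v ⟨0, h⟩ ⟨0, h⟩)
  else 0

/-- `exp (π i / N)` -/
noncomputable def vN (N : ℕ) : ℂ := Complex.exp (π * Complex.I / N)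

/-- the signed twist numbers, the last one first -/
def sgl : Bool → List ℕ → List ℤ
  | _, [] => []
  | b, a :: l => sgl (!b) l ++ [if b then (a : ℤ) else -(a : ℤ)]

/-- from the R-matrix to the iterated integral -/
def S_RT : Prop := ∀ as : List ℕ, as ≠ [] → ∀ N : ℕ, 2 ≤ N →
  ContinuousAt (jn as N) (vN N) ∧
    ‖jn as N (vN N)‖ = ((N : ℝ) ^ 2 / (2 * π)) ^ as.length * ‖JJ (sgl true as) N‖

/-! ### The state sum at generic `v` -/

/-- the nodes `u_j = v^(2j+1) + v^(-(2j+1))` -/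
noncomputable def un (v : ℂ) (i : ℕ) : ℂ := v ^ (2 * (i : ℤ) + 1) + v ^ (-(2 * (i : ℤ) + 1))

/-- divided difference of `((-1)^k v^(k(k+1)))^a` at the nodes `u_l, …, u_n` -/
noncomputable def gd (v : ℂ) (a : ℤ) (l n : ℕ) : ℂ :=
  ∑ k ∈ Icc l n, Lagrange.nodalWeight (Icc l n) (un v) k * ((-1) ^ k * v ^ (k * (k + 1))) ^ a

/-- `∏_{1 ≤ l ≤ n} (-{N+l} {N-l} {l}^2)` -/
noncomputable def wn (N : ℕ) (v : ℂ) (n : ℕ) : ℂ :=
  ∏ l ∈ range n, (-(br v ((N : ℤ) + (l + 1 : ℕ)) * br v ((N : ℤ) - (l + 1 : ℕ)) *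
    br v ((l + 1 : ℕ) : ℤ) ^ 2))

/-- the action of the twist regions on the coefficients with respect to `f_0, …, f_{N-1}` -/
noncomputable def sv (N : ℕ) (v : ℂ) : Bool → List ℕ → (ℕ → ℂ) → ℕ → ℂ
  | _, [], c => c
  | true, a :: l, c => sv N v false l fun n => ∑ i ∈ range (n + 1), gd v a i n * c i
  | false, a :: l, c => sv N v true l fun i =>
      ∑ n ∈ Ico i N, gd v (-(a : ℤ)) i n * (wn N v n / wn N v i) * c n

/-- the value of the closure `cap(2,3)` on `f_n` -/
noncomputable def qn (N : ℕ) (v : ℂ) (n : ℕ) : ℂ :=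
  (-1) ^ (N - 1) * br v (N : ℤ) * (∏ l ∈ range n, br v ((N : ℤ) + (l + 1 : ℕ)) *
    br v ((N : ℤ) - (l + 1 : ℕ))) / br v ((n + 1 : ℕ) : ℤ)

/-- alternating sum of the twist numbers -/
def alt : Bool → List ℕ → ℤ
  | _, [] => 0
  | b, a :: l => (if b then (a : ℤ) else -(a : ℤ)) + alt (!b) l

/-- the state sum -/
def S_ALG : Prop := ∀ (as : List ℕ) (N : ℕ) (v : ℂ), 0 < N → v ≠ 0 → ‖v‖ ≠ 1 →
  jn as N v = ((-1) ^ (N - 1) * v ^ (-((N : ℤ) ^ 2 - 1))) ^ (alt true as) *
    (if as.length % 2 = 0 then sv N v true as (fun i => if i = 0 then 1 else 0) 0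
      else ∑ n ∈ range N, qn N v n * sv N v true as (fun i => if i = 0 then 1 else 0) n)

/-- the limit of the divided differences -/
def S_GDL : Prop := ∀ (a : ℤ) (N : ℕ), 2 ≤ N → ∃ c : ℂ, ‖c‖ = 1 ∧ ∀ l n : ℕ, l ≤ n → n < N →
  Tendsto (fun v => gd v a l n) (𝓝[≠] (vN N)) (𝓝 (c * (-1) ^ (N - 1 - n + l) / (2 * π) *
    upp (1 / N) fun ψ => Ea a N ψ * Rp N (N - 1 - n) ψ * Rp N l ψ * kr N ψ))

/-- continuity at the root of unity -/
def S_CONT : Prop := ∀ (as : List ℕ) (N : ℕ), ContinuousAt (jn as N) (vN N)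

end Pool.Agent.W711.HT
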