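import Pool.Agent.W711.HT.Stm
import Pool.Agent.W711.HT.Rt
import Pool.Agent.W709.VC.GeoDefs

/-!
# Volume conjecture for highly twisted two-bridge links: the critical value is the volume

Statements.
-/

set_option autoImplicit false

namespace Pool.Agent.W711.HT

open Filter Finset Topology Metric
open Pool.Agent.W709.VC (Dv S_TET S_DSYM S_FIVE)
open scoped Real ComplexConjugate

/-! ### Angle structures

The layered triangulation has the layers `1, …, n - 1` (`n = c - 2`, `c` the crossing number), two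
ideal tetrahedra in each; `H` is the set of the hinge layers. -/

/-- first dihedral angle -/
noncomputable def xg (H : ℕ → Prop) [DecidablePred H] (w : ℕ → ℝ) (j : ℕ) : ℝ :=
  if H j then (w (j - 1) + w j - w (j + 1)) / 2 else (w (j - 1) + w (j + 1)) / 2

/-- second dihedral angle -/
noncomputable def yg (H : ℕ → Prop) [DecidablePred H] (w : ℕ → ℝ) (j : ℕ) : ℝ :=
  if H j then (-w (j - 1) + w j + w (j + 1)) / 2 else (2 * w j - w (j - 1) - w (j + 1)) / 2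

/-- angle structures -/
def AngG (n : ℕ) (H : ℕ → Prop) [DecidablePred H] (w : ℕ → ℝ) : Prop :=
  w 0 = π ∧ w n = π ∧ ∀ j, 1 ≤ j → j < n → 0 < xg H w j ∧ 0 < yg H w j ∧ 0 < π - w j

/-- volume of an angle structure -/
noncomputable def volG (n : ℕ) (H : ℕ → Prop) [DecidablePred H] (w : ℕ → ℝ) : ℝ :=
  ∑ j ∈ Ico 1 n, 2 * (GapVol.lob (xg H w j) + GapVol.lob (yg H w j) + GapVol.lob (π - w j))

/-- a solution of the gluing equations gives the maximum of the volume: `Q j ^ 2` is the shape of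
the layer `j` (or its complex conjugate); `P j` is the same except at the hinges -/
structure Sol (n : ℕ) (H : ℕ → Prop) [DecidablePred H] (Q P : ℕ → ℂ) : Prop where
  hn : 2 ≤ n
  q0 : Q 0 = 1
  p0 : P 0 = 1
  qn : Q n = 1
  pos : ∀ j, 1 ≤ j → j < n → 0 < (Q j).re ∧ 0 < (Q j).im
  non : ∀ j, 1 ≤ j → j < n → ¬H j → P j = Q j ∧ P (j - 1) * Q (j + 1) = Q j ^ 2 - 1
  hin : ∀ j, 1 ≤ j → j < n → H j → P j = (conj (Q j))⁻¹ ∧
    (Q j ^ 2 - 1) ^ 2 = -(Q j ^ 2 * P (j - 1) ^ 2 * conj (Q (j + 1)) ^ 2)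

def S_GMAX : Prop := ∀ (n : ℕ) (H : ℕ → Prop) [DecidablePred H] (Q P : ℕ → ℂ), Sol n H Q P →
  IsGreatest {V : ℝ | ∃ w, AngG n H w ∧ volG n H w = V} (∑ j ∈ Ico 1 n, 2 * Dv (Q j ^ 2))

/-! ### Dilogarithm identities -/

/-- the contribution of one side of a hinge -/
noncomputable def HH (Y W : ℂ) : ℝ := Dv ((1 - W) / (1 - Y * W)) + Dv ((1 - Y * W) / (1 - Y))

/-- sum over a twist region -/
def S_FANG : Prop := ∀ (a : ℕ) (r t t' : ℂ), 2 ≤ a → a * r + t + t' = π → Complex.sin r ≠ 0 →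
  (∀ k : ℕ, 1 ≤ k → k < a → Complex.sin (k * r + t) ≠ 0) →
  ∑ k ∈ Ico 1 a, Dv ((Complex.sin (k * r + t) / Complex.sin r) ^ 2) =
    HH (Complex.exp (2 * Complex.I * r)) (Complex.exp (2 * Complex.I * t)) +
      HH (Complex.exp (2 * Complex.I * r)) (Complex.exp (2 * Complex.I * t'))

/-- the hinge identity; `G = e^(iψ)`, `K = e^(iψ')`, `X = e^(iu)` -/
def S_HID : Prop := ∀ G K X : ℂ, G ≠ 0 → K ≠ 0 → X ≠ 0 → G ≠ -1 → K ≠ -1 → X ≠ 1 → G + X ≠ 0 →
  1 + X * G ≠ 0 → K + X ≠ 0 → 1 + X * K ≠ 0 →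
  -((1 - X) ^ 2 * G / (X * (1 + G) ^ 2)) + -((1 - X) ^ 2 * K / (X * (1 + K) ^ 2)) = 1 →
  2 * (Dv (-((1 - X) * G / (X * (1 + G)))) + Dv (X * (1 + G) / (1 + X * G))) -
    2 * (Dv ((1 - X) / (1 + K)) + Dv ((1 + K) / (1 + X * K))) +
    2 * Dv (-((1 + K) ^ 2 * G / (K * (1 + G) ^ 2))) =
  4 * Dv X + Dv (-(G / X)) + Dv (-(1 / (X * G))) + Dv (-(K / X)) + Dv (-(1 / (X * K)))

/-- the hinge volume -/
noncomputable def hv (ψ ψ' u : ℂ) : ℝ :=
  4 * Dv (Complex.exp (Complex.I * u)) + Dv (-Complex.exp (Complex.I * (ψ - u))) +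
    Dv (-Complex.exp (-(Complex.I * (u + ψ)))) + Dv (-Complex.exp (Complex.I * (ψ' - u))) +
    Dv (-Complex.exp (-(Complex.I * (u + ψ'))))

/-- the conditions at a hinge -/
structure HP (ψ ψ' u : ℂ) : Prop where
  ne : ψ ≠ 0
  ne' : ψ' ≠ 0
  sm : ‖ψ‖ ≤ 1 / 10
  sm' : ‖ψ'‖ ≤ 1 / 10
  un : ‖u - π / 2‖ ≤ π / 8
  eq : Complex.cos u = (1 - Complex.cos ψ * Complex.cos ψ') /
    (2 + Complex.cos ψ + Complex.cos ψ')

/-- `τ = Lg / (2 i)` -/
noncomputable def tt (ψ u : ℂ) : ℂ := Lg u ψ / (2 * Complex.I)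

/-- local facts at a hinge -/
def S_HLOC : Prop := ∀ ψ ψ' u : ℂ, HP ψ ψ' u →
  Complex.exp (2 * Complex.I * tt ψ u) =
    (Complex.exp (Complex.I * u) + Complex.exp (Complex.I * ψ)) /
      (1 + Complex.exp (Complex.I * u) * Complex.exp (Complex.I * ψ)) ∧
  ‖tt ψ u + Complex.I * ψ / 2‖ ≤ ‖ψ‖ / 20 ∧
  Complex.sin (tt ψ u) =
    -Complex.I * Complex.sin (ψ / 2) * Complex.cos (ψ' / 2) / Complex.cos (ψ / 2) ∧
  Complex.sin (tt ψ u + ψ / 2) * Complex.sin (tt ψ' u - ψ' / 2) *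
      (Complex.cos (ψ / 2) * Complex.cos (ψ' / 2)) =
    -(Complex.sin (ψ / 2) * Complex.sin (ψ' / 2) *
      (Complex.cos (ψ / 2) ^ 2 + Complex.cos (ψ' / 2) ^ 2)) ∧
  Complex.sin (tt ψ u - ψ / 2) * Complex.sin (tt ψ' u + ψ' / 2) *
      (Complex.cos (ψ / 2) * Complex.cos (ψ' / 2)) =
    -(Complex.sin (ψ / 2) * Complex.sin (ψ' / 2) *
      (Complex.cos (ψ / 2) ^ 2 + Complex.cos (ψ' / 2) ^ 2))

/-- volumes at a hinge -/
def S_HV : Prop := ∀ ψ ψ' u : ℂ, HP ψ ψ' u → ∀ e : ℝ, e = 1 ∨ e = -1 →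
  2 * e * HH (Complex.exp (-(Complex.I * e * ψ))) (Complex.exp (2 * Complex.I * tt ψ u)) -
    2 * e * HH (Complex.exp (Complex.I * e * ψ')) (Complex.exp (2 * Complex.I * tt ψ' u)) +
    2 * e * Dv (-((1 + Complex.cos ψ') / (1 + Complex.cos ψ))) = hv ψ ψ' u

/-- the potential at a hinge -/
def S_POTH : Prop := ∀ δ ψ : ℂ, ‖δ - 1 / 4‖ ≤ 1 / 16 → ‖ψ‖ ≤ 1 / 4 →
  2 * π * (rrF δ ψ).re - ψ.im * (Lg (2 * π * δ) ψ).im + (2 * π * δ).im *
    (Complex.log (2 * Complex.cos ψ + 2 * Complex.cos (2 * π * δ))).im =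
    Dv (-Complex.exp (Complex.I * (ψ - 2 * π * δ))) +
      Dv (-Complex.exp (-(Complex.I * (2 * π * δ + ψ)))) ∧
  -(2 * π * (ssF δ).re) = Dv (Complex.exp (Complex.I * (2 * π * δ))) +
    (2 * π * δ).im * (Complex.log (2 * Complex.sin (π * δ))).im

/-! ### The first quadrant -/

def S_QUAD : Prop := ∀ (a : ℕ) (l m : ℂ), 10 ≤ a → (l = 0 ∨ ‖l - 1‖ ≤ 1 / 10) →
  (m = 0 ∨ ‖m - 1‖ ≤ 1 / 10) → (l ≠ 0 ∨ m ≠ 0) → ∀ k : ℕ, 1 ≤ k → k < a → (l = 0 → k ≠ 1) →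
  (m = 0 → k + 1 ≠ a) →
  0 < (Complex.sin (π / (a + Complex.I * (l + m)) * (k + Complex.I * l)) /
    Complex.sin (π / (a + Complex.I * (l + m)))).re ∧
  0 < (Complex.sin (π / (a + Complex.I * (l + m)) * (k + Complex.I * l)) /
    Complex.sin (π / (a + Complex.I * (l + m)))).im

/-! ### Chains of twist regions

The head of the list is the last twist region. -/

/-- sum of the twist numbers -/
def sm : List (ℕ × ℂ) → ℕ
  | [] => 0
  | p :: l => p.1 + sm l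

/-- `τ` at the left end of a twist region -/
noncomputable def tl (dl : ℂ → ℂ → ℂ) : List (ℕ × ℂ) → ℂ → ℂ
  | [], _ => 0
  | p :: _, z => tt z (2 * π * dl p.2 z)

/-- `τ` at the right end of the head, `z` being the variable of the next twist region -/
noncomputable def tr (dl : ℂ → ℂ → ℂ) : List (ℕ × ℂ) → ℂ → ℂ
  | [], _ => 0
  | p :: _, z => tt p.2 (2 * π * dl p.2 z)

/-- the functions `sin (k ρ + τ) / sin ρ` of a twist region; `b = true` for the first, the third,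
the fifth twist region and so on -/
noncomputable def Uf (b : Bool) (z t : ℂ) (k : ℕ) : ℂ :=
  if b then Complex.sin (k * (-z / 2) + t) / Complex.sin (-z / 2)
  else conj (Complex.sin (k * (z / 2) + t) / Complex.sin (z / 2))

/-- first, third, fifth twist region and so on -/
def bl (l : List (ℕ × ℂ)) : Bool := l.length % 2 = 0

/-- sign of the twist region after `l` -/
noncomputable def sgn (l : List (ℕ × ℂ)) : ℝ := if bl l then 1 else -1

/-- the solution; at the hinges seen from the left -/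
noncomputable def Qc (dl : ℂ → ℂ → ℂ) : List (ℕ × ℂ) → ℕ → ℂ
  | [], _ => 1
  | p :: l, j => if j + 1 ≤ sm l then Qc dl l j else Uf (bl l) p.2 (tl dl l p.2) (j + 1 - sm l)

/-- the solution; at the hinges seen from the right -/
noncomputable def Pc (dl : ℂ → ℂ → ℂ) : List (ℕ × ℂ) → ℕ → ℂ
  | [], _ => 1
  | p :: l, j => if j + 1 < sm l then Pc dl l j else Uf (bl l) p.2 (tl dl l p.2) (j + 1 - sm l)

/-- the hinge layers -/
def isH : List (ℕ × ℂ) → ℕ → Prop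
  | [], _ => False
  | _ :: l, j => isH l j ∨ (l ≠ [] ∧ j + 1 = sm l)

/-- the equations and estimates of a chain; `t` is `τ` at the right end of the head -/
def Chn (dl : ℂ → ℂ → ℂ) : List (ℕ × ℂ) → ℂ → Prop
  | [], _ => True
  | p :: l, t => 10 ≤ p.1 ∧ 0 < p.2.im ∧ sgn l * p.2.re < 0 ∧
      p.1 * (-(sgn l : ℂ) * p.2 / 2) + tl dl l p.2 + t = π ∧
      (∀ p' ∈ l.head?, HP p'.2 p.2 (2 * π * dl p'.2 p.2)) ∧ Chn dl l (tr dl l p.2)

/-- sum of the hinge volumes -/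
noncomputable def hsum (dl : ℂ → ℂ → ℂ) : List (ℕ × ℂ) → ℝ
  | [] => 0
  | p :: l => (l.head?.elim 0 fun p' => hv p'.2 p.2 (2 * π * dl p'.2 p.2)) + hsum dl l

/-- a chain is a solution of the gluing equations -/
def S_CHN : Prop := ∀ (dl : ℂ → ℂ → ℂ) (L : List (ℕ × ℂ)) [DecidablePred (isH L)],
  2 ≤ L.length → Chn dl L 0 → Sol (sm L - 2) (isH L) (Qc dl L) (Pc dl L)

/-- the volume of a chain -/
def S_CHV : Prop := ∀ (dl : ℂ → ℂ → ℂ) (L : List (ℕ × ℂ)),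
  2 ≤ L.length → Chn dl L 0 → ∑ j ∈ Ico 1 (sm L - 2), 2 * Dv (Qc dl L j ^ 2) = hsum dl L

/-! ### From the critical configurations to chains -/

/-- the signed twist numbers of a chain -/
def sgc : List (ℕ × ℂ) → List ℤ
  | [] => []
  | p :: l => (if bl l then (p.1 : ℤ) else -(p.1 : ℤ)) :: sgc l

/-- the critical configurations are chains, and the critical value is the sum of the hinge
volumes -/
def S_CCH : Prop := ∀ (ρ τ κ c : ℝ) (s dl : ℂ → ℂ → ℂ), KD ρ τ κ c s dl → ∀ C : ℝ, 0 < C →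
  ∃ M : ℕ, ∀ (p : ℕ × ℂ) (l : List (ℕ × ℂ)), l ≠ [] → (∀ p' ∈ p :: l, M ≤ p'.1) →
    ∀ v g : ℂ, Crit s C ρ τ (sgc l) (l.map Prod.snd) p.2 v g →
      CPt C ρ τ (if bl l then (p.1 : ℤ) else -(p.1 : ℤ)) p.2 →
      Complex.I * (if bl l then (p.1 : ℤ) else -(p.1 : ℤ)) * p.2 / (2 * π) + Complex.I + g = 0 →
      Chn dl (p :: l) 0 ∧
      2 * π * (Complex.I * (if bl l then (p.1 : ℤ) else -(p.1 : ℤ)) * p.2 ^ 2 / (4 * π) +
        Complex.I * p.2 + v).re = hsum dl (p :: l)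

/-! ### The final statement -/

/-- the hinge layers of `C(a_1, …, a_r)` -/
def hin (as : List ℕ) (j : ℕ) : Prop := ∃ i, 0 < i ∧ i < as.length ∧ j + 1 = (as.take i).sum

/-- the growth rate is the maximal volume -/
def S_FIN : Prop := ∃ M : ℕ, ∀ (as : List ℕ) [DecidablePred (hin as)], 2 ≤ as.length →
  (∀ a ∈ as, M ≤ a) → ∃ V : ℝ,
    IsGreatest {W : ℝ | ∃ w, AngG (as.sum - 2) (hin as) w ∧ volG (as.sum - 2) (hin as) w = W} V ∧
    Tendsto (fun N : ℕ => 2 * π * (Real.log ‖JJ (sgl true as) N‖ / N)) atTop (𝓝 V)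

end Pool.Agent.W711.HT
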