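import Pool.Agent.W711.HT.Defs

/-!
# Volume conjecture for highly twisted two-bridge links: statements of the analytic part
-/

set_option autoImplicit false

namespace Pool.Agent.W711.HT

open Filter Finset Topology Metric
open scoped Real

/-- `31 / (128 π)`, slightly smaller than `1 / (4 π)` -/
noncomputable def c1 : ℝ := 31 / (128 * π)

/-! ### Bounds of `R_d` -/

/-- `b(δ, x) = ∫_0^δ log (|cos x + cos 2 π s| / (1 - cos 2 π s)) ds` -/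
noncomputable def bb (δ x : ℝ) : ℝ :=
  ∫ s in (0:ℝ)..δ, Real.log (|Real.cos x + Real.cos (2 * π * s)| / (1 - Real.cos (2 * π * s)))

/-- bound of the finite products by the integral -/
def S_B0 : Prop := ∀ ε : ℝ, 0 < ε → ∃ τ : ℝ, 0 < τ ∧ ∀ᶠ N : ℕ in atTop, ∀ d < N, ∀ x y : ℝ,
  |x| ≤ π → |y| ≤ τ →
  ‖Rp N d (x + y * Complex.I)‖ ≤ Sd N d ^ 2 * Real.exp (N * (bb ((d : ℝ) / N) x + ε))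

/-- the integral, near its maximum -/
def S_B1 : Prop := ∃ ρs : ℝ, 0 < ρs ∧ ρs ≤ 1 ∧ ∀ δ x : ℝ, 0 ≤ δ → δ ≤ 1 → |x| ≤ π →
  bb δ x ≤ bet - c1 * min |x| ρs ^ 2

/-- the integral, away from `δ = 1 / 4` -/
def S_B2 : Prop := ∀ ρ : ℝ, 0 < ρ → ∃ κ : ℝ, 0 < κ ∧ ∀ δ x : ℝ, 0 ≤ δ → δ ≤ 1 → |x| ≤ π →
  ρ ≤ |δ - 1 / 4| → bb δ x ≤ bet - κ

def S_BND : Prop := ∃ ρs : ℝ, 0 < ρs ∧ ρs ≤ 1 ∧ ∀ ε : ℝ, 0 < ε → ∃ τ : ℝ, 0 < τ ∧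
  ∀ᶠ N : ℕ in atTop, ∀ d < N, ∀ x y : ℝ, |x| ≤ π → |y| ≤ τ →
  ‖Rp N d (x + y * Complex.I)‖ ≤
    Sd N d ^ 2 * Real.exp (N * (bet - c1 * min |x| ρs ^ 2 + ε))

def S_FARD : Prop := ∀ ρ : ℝ, 0 < ρ → ∃ κ : ℝ, 0 < κ ∧ ∃ τ : ℝ, 0 < τ ∧
  ∀ᶠ N : ℕ in atTop, ∀ d < N, ρ ≤ |(d : ℝ) / N - 1 / 4| → ∀ x y : ℝ, |x| ≤ π → |y| ≤ τ →
  ‖Rp N d (x + y * Complex.I)‖ ≤ Sd N d ^ 2 * Real.exp (N * (bet - κ))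

/-! ### Analytic interpolation in `d` -/

/-- Newton interpolation of the sums of an analytic function -/
def S_NEWT : Prop := ∀ (R : ℝ), 0 < R → ∃ ρ : ℝ, 0 < ρ ∧ ρ < R ∧
  ∀ (y₀ : ℝ) (K : Type) (lam : ℕ → K → ℂ → ℂ) (lam' : K → ℂ → ℂ) (M : ℝ),
  (∀ᶠ N : ℕ in atTop, ∀ k, DifferentiableOn ℂ (lam N k) (ball (y₀ : ℂ) R)) →
  (∀ k, DifferentiableOn ℂ (lam' k) (ball (y₀ : ℂ) R)) →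
  (∀ᶠ N : ℕ in atTop, ∀ k, ∀ z ∈ ball (y₀ : ℂ) R, ‖lam N k z‖ ≤ M) →
  (∀ ε : ℝ, 0 < ε → ∀ᶠ N : ℕ in atTop, ∀ k, ∀ z ∈ ball (y₀ : ℂ) R,
    ‖lam N k z - lam' k z‖ ≤ ε) →
  ∀ m : ℕ → ℕ, (∀ᶠ N : ℕ in atTop, |(m N : ℝ) / N - (y₀ - ρ)| ≤ ρ / 4) →
  ∃ c : ℕ → ℕ → K → ℂ, ∃ D : ℕ → ℕ,
    (∀ N j k, c N j k = ∑ i ∈ range (j + 1), (-1 : ℂ) ^ (j - i) * (j.choose i : ℂ) *
      lam N k (((m N + i : ℕ) : ℂ) / N)) ∧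
    (∀ᶠ N : ℕ in atTop, ∀ k, ∀ d : ℕ, |(d : ℝ) / N - y₀| ≤ ρ / 2 →
      ∑ j ∈ Ico (m N) d, lam N k ((j : ℂ) / N) =
        ∑ j ∈ range (D N), c N j k * ((∏ i ∈ range (j + 1), ((d : ℂ) - m N - i)) /
          ((j + 1).factorial : ℂ))) ∧
    (∀ ε : ℝ, 0 < ε → ∀ᶠ N : ℕ in atTop, ∀ k, ∀ z ∈ ball (y₀ : ℂ) (ρ / 2),
      ‖(∑ j ∈ range (D N), c N j k * ((∏ i ∈ range (j + 1), (N * z - m N - i)) /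
          ((j + 1).factorial : ℂ))) / N -
        (z - (m N : ℂ) / N) * ∫ t in (0:ℝ)..1, lam' k ((m N : ℂ) / N + (z - (m N : ℂ) / N) * t)‖ ≤ ε)

/-- analytic interpolation of `log R_d` and `log S_d` -/
def S_INT : Prop := ∃ ρ : ℝ, 0 < ρ ∧ ρ < 1 / 8 ∧ ∃ r : ℕ → ℂ × ℂ → ℂ, ∃ s : ℕ → ℂ → ℂ,
  (∀ᶠ N : ℕ in atTop, DifferentiableOn ℂ (r N) (ball (1 / 4) ρ ×ˢ ball 0 ρ)) ∧
  (∀ᶠ N : ℕ in atTop, DifferentiableOn ℂ (s N) (ball (1 / 4) ρ)) ∧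
  (∀ᶠ N : ℕ in atTop, ∀ d : ℕ, |(d : ℝ) / N - 1 / 4| < ρ →
    (∀ ψ ∈ ball (0 : ℂ) ρ, Rp N d ψ = Complex.exp (N * r N ((d : ℂ) / N, ψ))) ∧
    (Sd N d : ℂ) = Complex.exp (N * s N ((d : ℂ) / N))) ∧
  TendstoUniformlyOn r (fun p => rrF p.1 p.2) atTop (ball (1 / 4) ρ ×ˢ ball 0 ρ) ∧
  TendstoUniformlyOn s ssF atTop (ball (1 / 4) ρ)

/-- derivatives of the limit functions -/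
def S_RRD : Prop := ∃ ρ : ℝ, 0 < ρ ∧
  DifferentiableOn ℂ (fun p : ℂ × ℂ => rrF p.1 p.2) (ball (1 / 4) ρ ×ˢ ball 0 ρ) ∧
  DifferentiableOn ℂ ssF (ball (1 / 4) ρ) ∧
  (∀ δ ∈ ball (1 / 4 : ℂ) ρ, ∀ ψ ∈ ball (0 : ℂ) ρ,
    HasDerivAt (fun z => rrF z ψ)
      (Complex.log (2 * Complex.cos ψ + 2 * Complex.cos (2 * π * δ))) δ ∧
    HasDerivAt (fun z => rrF δ z) (-(1 / (2 * π)) * Lg (2 * π * δ) ψ) ψ ∧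
    HasDerivAt ssF (Complex.log (2 * Complex.sin (π * δ))) δ) ∧
  2 * rrF (1 / 4) 0 - 4 * ssF (1 / 4) = ((2 * bet : ℝ) : ℂ)

/-! ### The saddle point method in one variable -/

/-- continuous convergence on a compact set is uniform -/
def S_SEQ : Prop := ∀ (E : Type) [MetricSpace E] (K : Set E), IsCompact K →
  ∀ (u : ℕ → E → ℝ) (Φ : E → ℝ), ContinuousOn Φ K →
  (∀ (p : ℕ → E) (p₀ : E), p₀ ∈ K → (∀ N, p N ∈ K) → Tendsto p atTop (𝓝 p₀) →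
    Tendsto (fun N => u N (p N)) atTop (𝓝 (Φ p₀))) →
  ∀ ε : ℝ, 0 < ε → ∀ᶠ N : ℕ in atTop, ∀ p ∈ K, |u N p - Φ p| ≤ ε

/-- integral on a horizontal segment through the critical point -/
def S_LAPC : Prop := ∀ (q p : ℕ → ℂ → ℂ) (Q P : ℂ → ℂ) (U : Set ℂ) (a b : ℝ) (z : ℂ),
  IsOpen U → (∀ᶠ N : ℕ in atTop, DifferentiableOn ℂ (q N) U) → DifferentiableOn ℂ Q U →
  TendstoUniformlyOn q Q atTop U → (∀ᶠ N : ℕ in atTop, DifferentiableOn ℂ (p N) U) →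
  DifferentiableOn ℂ P U → TendstoUniformlyOn p P atTop U → a < z.re → z.re < b →
  (∀ x : ℝ, a ≤ x → x ≤ b → (x : ℂ) + z.im * Complex.I ∈ U) → deriv Q z = 0 →
  (deriv (deriv Q) z).re < 0 → P z ≠ 0 →
  (∀ x : ℝ, a ≤ x → x ≤ b → x ≠ z.re → (Q (x + z.im * Complex.I)).re < (Q z).re) →
  Tendsto (fun N : ℕ => Real.log ‖∫ x in a..b, p N (x + z.im * Complex.I) *
    Complex.exp (N * q N (x + z.im * Complex.I))‖ / N) atTop (𝓝 (Q z).re)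

/-- sum over the integers of a window -/
def S_LAPSUM : Prop := ∀ (q : ℕ → ℂ → ℂ) (Q : ℂ → ℂ) (U : Set ℂ) (a b h : ℝ) (z : ℂ)
  (A B : ℕ → ℕ), IsOpen U → (∀ᶠ N : ℕ in atTop, DifferentiableOn ℂ (q N) U) →
  DifferentiableOn ℂ Q U → TendstoUniformlyOn q Q atTop U →
  (∀ x y : ℝ, a ≤ x → x ≤ b → |y| ≤ h → (x : ℂ) + y * Complex.I ∈ U) → 0 < h →
  Tendsto (fun N : ℕ => (A N : ℝ) / N) atTop (𝓝 a) →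
  Tendsto (fun N : ℕ => (B N : ℝ) / N) atTop (𝓝 b) →
  a < z.re → z.re < b → |z.im| < h → deriv Q z = 0 → (deriv (deriv Q) z).re < 0 →
  (∀ x : ℝ, a ≤ x → x ≤ b → x ≠ z.re → (Q (x + z.im * Complex.I)).re < (Q z).re) →
  (∀ y : ℝ, |y| ≤ h → (Q (a + y * Complex.I)).re < (Q z).re ∧
    (Q (b + y * Complex.I)).re < (Q z).re) →
  (∀ x : ℝ, a ≤ x → x ≤ b → (Q (x + h * Complex.I)).re - 2 * π * h < (Q z).re ∧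
    (Q (x - h * Complex.I)).re - 2 * π * h < (Q z).re) →
  Tendsto (fun N : ℕ => Real.log ‖∑ d ∈ Ico (A N) (B N),
    Complex.exp (N * q N ((d : ℂ) / N))‖ / N) atTop (𝓝 (Q z).re)

/-- from the modulus to the complex logarithm -/
def S_LOG : Prop := ∀ (f : ℕ → ℂ → ℂ) (G : ℂ → ℂ) (U K : Set ℂ), IsOpen U → Convex ℝ U →
  (∀ᶠ N : ℕ in atTop, DifferentiableOn ℂ (f N) U) → DifferentiableOn ℂ G U → MW f G U →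
  IsCompact K → K ⊆ U →
  ∃ (g : ℕ → ℂ → ℂ) (c : ℕ → ℂ), (∀ N, ‖c N‖ = 1) ∧
    (∀ᶠ N : ℕ in atTop, DifferentiableOn ℂ (g N) U ∧
      ∀ z ∈ U, f N z = c N * Complex.exp (N * g N z)) ∧
    TendstoUniformlyOn g G atTop K

/-- the potential of the variable `ψ` -/
noncomputable def qq (a : ℤ) (G : ℂ → ℂ) (w : ℂ) : ℂ :=
  Complex.I * a * w ^ 2 / (4 * π) + Complex.I * w + G w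

/-- the integral over the near part of the path -/
def S_LAPINT : Prop := ∀ (Y : ℕ → ℂ → ℂ) (G : ℂ → ℂ) (a : ℤ) (ρ τ : ℝ) (z : ℂ),
  0 < ρ → 0 < τ → 2 * ρ < π →
  (∀ᶠ N : ℕ in atTop, DifferentiableOn ℂ (Y N) (Rc (2 * ρ) (2 * τ))) →
  DifferentiableOn ℂ G (Rc (2 * ρ) (2 * τ)) → MW Y G (Rc (2 * ρ) (2 * τ)) →
  |z.re| < ρ → 0 < z.im → z.im < τ → Complex.sin z ≠ 0 → deriv (qq a G) z = 0 →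
  (deriv (deriv (qq a G)) z).re < 0 →
  (∀ x : ℝ, |x| ≤ ρ → x ≠ z.re → (qq a G (x + z.im * Complex.I)).re < (qq a G z).re) →
  (∀ y : ℝ, 0 ≤ y → y ≤ z.im → (qq a G (ρ + y * Complex.I)).re < (qq a G z).re ∧
    (qq a G (-ρ + y * Complex.I)).re < (qq a G z).re) →
  Tendsto (fun N : ℕ => Real.log ‖∫ x in (-ρ)..ρ, Ea a N (x + (1 / N : ℝ) * Complex.I) *
    Y N (x + (1 / N : ℝ) * Complex.I) * kr N (x + (1 / N : ℝ) * Complex.I)‖ / N) atTop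
    (𝓝 (qq a G z).re)

/-! ### The kernel -/

/-- the critical value of the sum over `d` -/
structure SD (ρ₀ c C : ℝ) (s dl : ℂ → ℂ → ℂ) : Prop where
  hρ : 0 < ρ₀ ∧ ρ₀ ≤ 1
  hc : 0 < c
  hC : 0 < C
  san : DifferentiableOn ℂ (fun p : ℂ × ℂ => s p.1 p.2) (Rc ρ₀ ρ₀ ×ˢ Rc ρ₀ ρ₀)
  dan : DifferentiableOn ℂ (fun p : ℂ × ℂ => dl p.1 p.2) (Rc ρ₀ ρ₀ ×ˢ Rc ρ₀ ρ₀)
  sbd : ∀ ψ ∈ Rc ρ₀ ρ₀, ∀ ψ' ∈ Rc ρ₀ ρ₀, ‖s ψ ψ'‖ ≤ C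
  sym : ∀ ψ ∈ Rc ρ₀ ρ₀, ∀ ψ' ∈ Rc ρ₀ ρ₀, s ψ ψ' = s ψ' ψ
  dsym : ∀ ψ ∈ Rc ρ₀ ρ₀, ∀ ψ' ∈ Rc ρ₀ ρ₀, dl ψ ψ' = dl ψ' ψ
  ev : ∀ ψ ∈ Rc ρ₀ ρ₀, ∀ ψ' ∈ Rc ρ₀ ρ₀, s (-ψ) ψ' = s ψ ψ'
  zero : s 0 0 = ((2 * bet : ℝ) : ℂ)
  conc : ∀ ψ ∈ Rc ρ₀ ρ₀, ∀ ψ' ∈ Rc ρ₀ ρ₀, (deriv (deriv fun z => s z ψ') ψ).re ≤ -c
  dl0 : dl 0 0 = 1 / 4
  dclose : ∀ ψ ∈ Rc ρ₀ ρ₀, ∀ ψ' ∈ Rc ρ₀ ρ₀,
    ‖dl ψ ψ' - 1 / 4‖ ≤ 1 / 16 ∧ ‖dl ψ ψ' - 1 / 4‖ ≤ C * (‖ψ‖ ^ 2 + ‖ψ'‖ ^ 2)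
  dcos : ∀ ψ ∈ Rc ρ₀ ρ₀, ∀ ψ' ∈ Rc ρ₀ ρ₀, Complex.cos (2 * π * dl ψ ψ') =
    (1 - Complex.cos ψ * Complex.cos ψ') / (2 + Complex.cos ψ + Complex.cos ψ')
  dcrit : ∀ ψ ∈ Rc ρ₀ ρ₀, ∀ ψ' ∈ Rc ρ₀ ρ₀,
    Complex.log (2 * Complex.cos ψ + 2 * Complex.cos (2 * π * dl ψ ψ')) +
      Complex.log (2 * Complex.cos ψ' + 2 * Complex.cos (2 * π * dl ψ ψ')) =
      4 * Complex.log (2 * Complex.sin (π * dl ψ ψ'))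
  scrit : ∀ ψ ∈ Rc ρ₀ ρ₀, ∀ ψ' ∈ Rc ρ₀ ρ₀,
    s ψ ψ' = rrF (dl ψ ψ') ψ + rrF (dl ψ ψ') ψ' - 4 * ssF (dl ψ ψ')
  sder : ∀ ψ ∈ Rc ρ₀ ρ₀, ∀ ψ' ∈ Rc ρ₀ ρ₀,
    HasDerivAt (fun z => s z ψ') (-(1 / (2 * π)) * Lg (2 * π * dl ψ ψ') ψ) ψ
  low : ∀ ψ ∈ Rc ρ₀ ρ₀, ∀ ψ' ∈ Rc ρ₀ ρ₀,
    ‖s ψ ψ' - (2 * bet - (ψ ^ 2 + ψ' ^ 2) / (4 * π))‖ ≤ C * (‖ψ‖ + ‖ψ'‖) ^ 4

def S_SD : Prop := ∃ (ρ₀ c C : ℝ) (s dl : ℂ → ℂ → ℂ), SD ρ₀ c C s dl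

/-- asymptotics of the kernel near the origin -/
def S_MWK : Prop := ∀ (ρ₀ c C : ℝ) (s dl : ℂ → ℂ → ℂ), SD ρ₀ c C s dl →
  ∃ ρ₁ : ℝ, 0 < ρ₁ ∧ ρ₁ ≤ ρ₀ ∧ ∃ τ₁ : ℝ, 0 < τ₁ ∧ ∀ ε : ℝ, 0 < ε → ∀ᶠ N : ℕ in atTop,
    ∀ ψ ∈ Rc ρ₁ τ₁, ∀ ψ' ∈ Rc ρ₁ τ₁, ker N ψ ψ' ≠ 0 ∧
      |Real.log ‖ker N ψ ψ'‖ - N * (s ψ ψ').re| ≤ ε * N

structure KD (ρ τ κ c : ℝ) (s dl : ℂ → ℂ → ℂ) : Prop where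
  hρ : 0 < ρ ∧ ρ ≤ 1 / 4
  hτ : 0 < τ ∧ τ ≤ ρ
  hκ : 0 < κ ∧ κ ≤ bet
  hc : 0 < c
  san : DifferentiableOn ℂ (fun p : ℂ × ℂ => s p.1 p.2)
    (Rc (3 * ρ) (3 * τ) ×ˢ Rc (3 * ρ) (3 * τ))
  dan : DifferentiableOn ℂ (fun p : ℂ × ℂ => dl p.1 p.2)
    (Rc (3 * ρ) (3 * τ) ×ˢ Rc (3 * ρ) (3 * τ))
  sbd : ∃ C : ℝ, ∀ ψ ∈ Rc (3 * ρ) (3 * τ), ∀ ψ' ∈ Rc (3 * ρ) (3 * τ), ‖s ψ ψ'‖ ≤ C
  sym : ∀ ψ ∈ Rc (3 * ρ) (3 * τ), ∀ ψ' ∈ Rc (3 * ρ) (3 * τ), s ψ ψ' = s ψ' ψ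
  dsym : ∀ ψ ∈ Rc (3 * ρ) (3 * τ), ∀ ψ' ∈ Rc (3 * ρ) (3 * τ), dl ψ ψ' = dl ψ' ψ
  ev : ∀ ψ ∈ Rc (3 * ρ) (3 * τ), ∀ ψ' ∈ Rc (3 * ρ) (3 * τ), s (-ψ) ψ' = s ψ ψ'
  zero : s 0 0 = ((2 * bet : ℝ) : ℂ)
  slow : ∀ ψ' ∈ Rc (3 * ρ) (3 * τ), bet ≤ (s 0 ψ').re
  conc : ∀ ψ ∈ Rc (3 * ρ) (3 * τ), ∀ ψ' ∈ Rc (3 * ρ) (3 * τ),
    (deriv (deriv fun z => s z ψ') ψ).re ≤ -c
  dl0 : dl 0 0 = 1 / 4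
  dclose : ∀ ψ ∈ Rc (3 * ρ) (3 * τ), ∀ ψ' ∈ Rc (3 * ρ) (3 * τ), ‖dl ψ ψ' - 1 / 4‖ ≤ 1 / 16
  dcos : ∀ ψ ∈ Rc (3 * ρ) (3 * τ), ∀ ψ' ∈ Rc (3 * ρ) (3 * τ), Complex.cos (2 * π * dl ψ ψ') =
    (1 - Complex.cos ψ * Complex.cos ψ') / (2 + Complex.cos ψ + Complex.cos ψ')
  scrit : ∀ ψ ∈ Rc (3 * ρ) (3 * τ), ∀ ψ' ∈ Rc (3 * ρ) (3 * τ),
    s ψ ψ' = rrF (dl ψ ψ') ψ + rrF (dl ψ ψ') ψ' - 4 * ssF (dl ψ ψ')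
  sder : ∀ ψ ∈ Rc (3 * ρ) (3 * τ), ∀ ψ' ∈ Rc (3 * ρ) (3 * τ),
    HasDerivAt (fun z => s z ψ') (-(1 / (2 * π)) * Lg (2 * π * dl ψ ψ') ψ) ψ
  mw : ∀ ε : ℝ, 0 < ε → ∀ᶠ N : ℕ in atTop, ∀ ψ ∈ Rc (3 * ρ) (3 * τ),
    ∀ ψ' ∈ Rc (3 * ρ) (3 * τ), ker N ψ ψ' ≠ 0 ∧
      |Real.log ‖ker N ψ ψ'‖ - N * (s ψ ψ').re| ≤ ε * N
  far : ∀ᶠ N : ℕ in atTop, ∀ x y : ℝ, ρ ≤ |x| → |x| ≤ π → |y| ≤ 1 / N →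
    ∀ ψ' ∈ Rc (3 * ρ) (3 * τ),
      ‖ker N (x + y * Complex.I) ψ'‖ ≤ Real.exp (N * ((s 0 ψ').re - κ))
  glob : ∀ ε : ℝ, 0 < ε → ∀ᶠ N : ℕ in atTop, ∀ x y x' y' : ℝ, |x| ≤ π → |x'| ≤ π →
    |y| ≤ 1 / N → |y'| ≤ 1 / N →
    ‖ker N (x + y * Complex.I) (x' + y' * Complex.I)‖ ≤ Real.exp (N * (2 * bet + ε))
  farg : ∀ᶠ N : ℕ in atTop, ∀ x y x' y' : ℝ, |x| ≤ π → ρ ≤ |x'| → |x'| ≤ π →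
    |y| ≤ 1 / N → |y'| ≤ 1 / N →
    ‖ker N (x + y * Complex.I) (x' + y' * Complex.I)‖ ≤ Real.exp (N * (2 * bet - 5 / 4 * κ))
  farb : ∀ᶠ N : ℕ in atTop, ∀ x y x' y' : ℝ, ρ ≤ |x| → |x| ≤ π → ρ ≤ |x'| → |x'| ≤ π →
    |y| ≤ 1 / N → |y'| ≤ 1 / N →
    ‖ker N (x + y * Complex.I) (x' + y' * Complex.I)‖ ≤ Real.exp (N * (2 * bet - 2 * κ))

def S_KER : Prop := ∃ (ρ τ κ c : ℝ) (s dl : ℂ → ℂ → ℂ), KD ρ τ κ c s dl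

/-! ### The recursion -/

/-- the functions of the recursion; `t = 0` at the beginning, `t = 1` afterwards -/
structure Good (ρ τ κ ε₀ : ℝ) (s : ℂ → ℂ → ℂ) (t : ℝ) (X : ℕ → ℂ → ℂ) (F : ℂ → ℂ) : Prop where
  an : ∀ N, Differentiable ℂ (X N)
  ev : ∀ N ψ, X N (-ψ) = X N ψ
  pos : 0 ≤ (F 0).re
  Fan : DifferentiableOn ℂ F (Rc (3 * ρ) (3 * τ))
  Fev : ∀ ψ ∈ Rc (3 * ρ) (3 * τ), F (-ψ) = F ψ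
  Fcl : ∀ ψ ∈ Rc (3 * ρ) (3 * τ), ‖F ψ - F 0 - t * (s 0 ψ - s 0 0)‖ ≤ ε₀
  mw : MW X F (Rc (2 * ρ) (2 * τ))
  gl : ∀ᶠ N : ℕ in atTop, ∀ x y : ℝ, |x| ≤ π → |y| ≤ 1 / N →
    ‖X N (x + y * Complex.I)‖ ≤ Real.exp (N * ((F 0).re + κ / 2))
  gl1 : t = 1 → ∀ᶠ N : ℕ in atTop, ∀ x y : ℝ, ρ ≤ |x| → |x| ≤ π → |y| ≤ 1 / N →
    ‖X N (x + y * Complex.I)‖ ≤ Real.exp (N * ((F 0).re - κ / 2))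

/-- the critical point of one step -/
structure CPt (C ρ τ : ℝ) (a : ℤ) (z : ℂ) : Prop where
  mem : z ∈ Rc ρ τ
  im : 1 / (C * a ^ 2) ≤ z.im
  cl : ‖z + 2 * π / a‖ ≤ C / a ^ 2

/-- the conditions of the saddle point method -/
structure SAD (a : ℤ) (G : ℂ → ℂ) (ρ : ℝ) (z : ℂ) : Prop where
  sn : Complex.sin z ≠ 0
  crit : deriv (qq a G) z = 0
  neg : (deriv (deriv (qq a G)) z).re < 0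
  line : ∀ x : ℝ, |x| ≤ ρ → x ≠ z.re → (qq a G (x + z.im * Complex.I)).re < (qq a G z).re
  side : ∀ y : ℝ, 0 ≤ y → y ≤ z.im → (qq a G (ρ + y * Complex.I)).re < (qq a G z).re ∧
    (qq a G (-ρ + y * Complex.I)).re < (qq a G z).re

/-- existence and properties of the critical points -/
def S_CP : Prop := ∀ (ρ τ κ c : ℝ) (s dl : ℂ → ℂ → ℂ), KD ρ τ κ c s dl →
  ∃ ε₀ C M : ℝ, 0 < ε₀ ∧ ε₀ ≤ κ / 16 ∧ 0 < C ∧ 0 < M ∧ C / M ≤ κ / 16 ∧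
    ∀ (t : ℝ) (F : ℂ → ℂ), (t = 0 ∨ t = 1) → DifferentiableOn ℂ F (Rc (3 * ρ) (3 * τ)) →
      (∀ ψ ∈ Rc (3 * ρ) (3 * τ), F (-ψ) = F ψ) →
      (∀ ψ ∈ Rc (3 * ρ) (3 * τ), ‖F ψ - F 0 - t * (s 0 ψ - s 0 0)‖ ≤ ε₀) →
      ∀ a : ℤ, M ≤ |(a : ℝ)| →
        (∃ (F' : ℂ → ℂ) (zs : ℂ → ℂ), DifferentiableOn ℂ F' (Rc (3 * ρ) (3 * τ)) ∧
          (∀ ψ ∈ Rc (3 * ρ) (3 * τ), F' (-ψ) = F' ψ) ∧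
          (∀ ψ ∈ Rc (3 * ρ) (3 * τ), ‖F' ψ - F' 0 - 1 * (s 0 ψ - s 0 0)‖ ≤ ε₀) ∧
          (∀ ψ ∈ Rc (3 * ρ) (3 * τ), ‖F' ψ - F 0 - s 0 ψ‖ ≤ C / |(a : ℝ)|) ∧
          ∀ ψ' ∈ Rc (3 * ρ) (3 * τ), CPt C ρ τ a (zs ψ') ∧
            SAD a (fun w => F w + s w ψ') ρ (zs ψ') ∧
            Complex.I * a * zs ψ' / (2 * π) + Complex.I + deriv F (zs ψ') +
              deriv (fun w => s w ψ') (zs ψ') = 0 ∧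
            F' ψ' = qq a F (zs ψ') + s (zs ψ') ψ' ∧
            HasDerivAt F' (deriv (fun w => s (zs ψ') w) ψ') ψ') ∧
        (t = 1 → ∃ z : ℂ, CPt C ρ τ a z ∧ SAD a F ρ z ∧
          Complex.I * a * z / (2 * π) + Complex.I + deriv F z = 0 ∧
          ‖qq a F z - F 0‖ ≤ C / |(a : ℝ)|)

def S_STEP : Prop := ∀ (ρ τ κ c : ℝ) (s dl : ℂ → ℂ → ℂ), KD ρ τ κ c s dl →
  ∃ ε₀ C M : ℝ, 0 < ε₀ ∧ 0 < C ∧ 0 < M ∧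
    Good ρ τ κ ε₀ s 0 (fun _ _ => 1) (fun _ => 0) ∧
    (∀ (t : ℝ) (X : ℕ → ℂ → ℂ) (F : ℂ → ℂ), (t = 0 ∨ t = 1) → Good ρ τ κ ε₀ s t X F →
      ∀ a : ℤ, M ≤ |(a : ℝ)| → ∃ (F' : ℂ → ℂ) (zs : ℂ → ℂ),
        Good ρ τ κ ε₀ s 1 (stp a X) F' ∧ ‖F' 0 - F 0 - s 0 0‖ ≤ C / |(a : ℝ)| ∧
        ∀ ψ' ∈ Rc (3 * ρ) (3 * τ), CPt C ρ τ a (zs ψ') ∧
          Complex.I * a * zs ψ' / (2 * π) + Complex.I + deriv F (zs ψ') +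
            deriv (fun w => s w ψ') (zs ψ') = 0 ∧
          F' ψ' = qq a F (zs ψ') + s (zs ψ') ψ' ∧
          HasDerivAt F' (deriv (fun w => s (zs ψ') w) ψ') ψ') ∧
    (∀ (X : ℕ → ℂ → ℂ) (F : ℂ → ℂ), Good ρ τ κ ε₀ s 1 X F →
      ∀ a : ℤ, M ≤ |(a : ℝ)| → ∃ z : ℂ, CPt C ρ τ a z ∧
        Complex.I * a * z / (2 * π) + Complex.I + deriv F z = 0 ∧
        ‖qq a F z - F 0‖ ≤ C / |(a : ℝ)| ∧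
        Tendsto (fun N : ℕ => Real.log ‖upp (1 / N) fun ψ => Ea a N ψ * X N ψ * kr N ψ‖ / N)
          atTop (𝓝 (qq a F z).re))

/-! ### The main theorem of the analytic part -/

/-- critical configurations: `Crit s C ρ τ l ps ψ' v g`: twist regions `l` (the head is the last
one), critical points `ps`, next variable `ψ'`, value `v`, derivative `g` of the value in `ψ'` -/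
inductive Crit (s : ℂ → ℂ → ℂ) (C ρ τ : ℝ) : List ℤ → List ℂ → ℂ → ℂ → ℂ → Prop
  | nil (ψ' : ℂ) : Crit s C ρ τ [] [] ψ' 0 0
  | cons (a : ℤ) (l : List ℤ) (z : ℂ) (ps : List ℂ) (ψ' v g : ℂ) :
      Crit s C ρ τ l ps z v g → CPt C ρ τ a z →
      Complex.I * a * z / (2 * π) + Complex.I + g + deriv (fun w => s w ψ') z = 0 →
      Crit s C ρ τ (a :: l) (z :: ps) ψ'
        (Complex.I * a * z ^ 2 / (4 * π) + Complex.I * z + v + s z ψ')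
        (deriv (fun w => s z w) ψ')

def S_MAIN : Prop := ∃ (ρ τ κ c : ℝ) (s dl : ℂ → ℂ → ℂ), KD ρ τ κ c s dl ∧
  ∃ C M : ℝ, 0 < C ∧ 0 < M ∧ ∀ (a : ℤ) (l : List ℤ), l ≠ [] → M ≤ |(a : ℝ)| →
    (∀ b ∈ l, M ≤ |(b : ℝ)|) → ∃ (z : ℂ) (ps : List ℂ) (v g : ℂ),
      Crit s C ρ τ l ps z v g ∧ CPt C ρ τ a z ∧
      Complex.I * a * z / (2 * π) + Complex.I + g = 0 ∧
      Tendsto (fun N : ℕ => Real.log ‖JJ (a :: l) N‖ / N) atTop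
        (𝓝 (Complex.I * a * z ^ 2 / (4 * π) + Complex.I * z + v).re) ∧
      ‖Complex.I * a * z ^ 2 / (4 * π) + Complex.I * z + v - l.length * s 0 0‖ ≤
        C / |(a : ℝ)| + (l.map fun b => C / |(b : ℝ)|).sum

end Pool.Agent.W711.HT
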